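import Mathlib

/-!
# Successors of singular limits of the Tukey spectrum, and lengths of scales

Let `μ` be a singular strong limit cardinal. We show in ZFC that the following are equivalent.

1. For every directed set `P` with `cf μ ∉ Sp(P)` and `Sp(P) ∩ μ` unbounded in `μ`, one has
   `μ⁺ ∈ Sp(P)`.
2. For every increasing sequence `⟨κ i : i < cf μ⟩` of regular cardinals with limit `μ`, the product
   `∏ κ i` has a family of at most `μ⁺` elements which is unbounded modulo bounded subsets of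
   `cf μ`.

For the implication from 1 to 2 it is sufficient that `μ` has countable cofinality, or that
`ν ^ cf μ < μ` for all `ν < μ`, and for the other one that `2 ^ cf μ < μ`. Statement 2 holds if
`2 ^ μ = μ⁺`; it fails for instance if `∏ κ i` has true cofinality `μ⁺⁺` for some sequence.
-/

set_option autoImplicit false

namespace Pool.Agent.Results.MP_c014b8_lc.ScaleLength

open Cardinal Set Order

universe u

/-- `(κ, <) ≤_T P`: some map from `P` to `κ` sends every cofinal subset of `P` onto a cofinal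
subset of `κ`. Here `κ.ord.ToType` is `κ` as a well-ordered set. -/
def TukeyLE (κ : Cardinal.{u}) (P : Type u) [PartialOrder P] : Prop :=
  ∃ f : P → κ.ord.ToType, ∀ B : Set P, IsCofinal B → IsCofinal (f '' B)

/-- The Tukey spectrum of `P`: the set of the regular cardinals `κ` with `(κ, <) ≤_T P`. -/
def Spectrum (P : Type u) [PartialOrder P] : Set Cardinal.{u} := {κ | κ.IsRegular ∧ TukeyLE κ P}

/-- The statement of the question for the singular cardinal `μ`: if `P` is a directed partially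
ordered set, `cf μ` is not in its spectrum, and its spectrum is unbounded in `μ`, then `μ⁺` is in
its spectrum. -/
def SuccInSpectrum (μ : Cardinal.{u}) : Prop :=
  ∀ (P : Type u) [PartialOrder P] [IsDirectedOrder P], μ.ord.cof ∉ Spectrum P →
    (∀ ν < μ, ∃ κ ∈ Spectrum P, ν < κ ∧ κ < μ) → succ μ ∈ Spectrum P

/-- For every increasing sequence `⟨κ i : i < cf μ⟩` of regular cardinals with limit `μ` there is a
family `F` of at most `μ⁺` elements of the product `∏ κ i` that is not bounded modulo bounded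
subsets of `cf μ`: for each `g` in the product there is `f ∈ F` with `g j < f j` for unboundedly
many `j < cf μ`. -/
def ShortUnbounded (μ : Cardinal.{u}) : Prop :=
  ∀ κ : μ.ord.cof.ord.ToType → Cardinal.{u}, StrictMono κ → (∀ i, (κ i).IsRegular) →
    (∀ i, κ i < μ) → (∀ ν < μ, ∃ i, ν < κ i) →
      ∃ F : Set ((i : μ.ord.cof.ord.ToType) → (κ i).ord.ToType), #F ≤ succ μ ∧
        ∀ g : (i : μ.ord.cof.ord.ToType) → (κ i).ord.ToType, ∃ f ∈ F, ∀ i, ∃ j ≥ i, g j < f j

/-! ### Basic facts -/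

theorem cofT {κ : Cardinal.{u}} (h : κ.IsRegular) : Order.cof κ.ord.ToType = κ := by
  rw [Ordinal.cof_toType, h.cof_ord]

theorem bound {T : Type u} [LinearOrder T] {ι : Type u} (h : #ι < Order.cof T) (f : ι → T) :
    ∃ b, ∀ i, f i < b := by
  by_contra hcon
  push Not at hcon
  have h1 : IsCofinal (range f) := fun x => by
    obtain ⟨i, hi⟩ := hcon x
    exact ⟨f i, ⟨i, rfl⟩, hi⟩
  exact absurd ((Order.cof_le h1).trans Cardinal.mk_range_le) (not_le.2 h)

theorem boundR {κ : Cardinal.{u}} (hκ : κ.IsRegular) {ι : Type u} (h : #ι < κ)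
    (f : ι → κ.ord.ToType) : ∃ b, ∀ i, f i < b :=
  bound (by rw [cofT hκ]; exact h) f

theorem pigeon {T : Type u} [LinearOrder T] {S : Type u} (h : #S < Order.cof T) {X : Set T}
    (hX : IsCofinal X) (st : T → S) : ∃ c, IsCofinal {x ∈ X | st x = c} := by
  apply isCofinal_of_isCofinal_iUnion
  · have : (⋃ c : S, {x ∈ X | st x = c}) = X := by
      ext x
      simp
    rw [this]
    exact hX
  · exact h

theorem noMaxR {κ : Cardinal.{u}} (hκ : ℵ₀ ≤ κ) : NoMaxOrder κ.ord.ToType :=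
  Cardinal.noMaxOrder hκ

theorem iio_lt {κ : Cardinal.{u}} (i : κ.ord.ToType) : #(Iio i) < κ := by
  have h := Cardinal.mk_Iio_lt i (by simp)
  rwa [Cardinal.mk_ord_toType] at h

theorem nonemptyR {κ : Cardinal.{u}} (hκ : ℵ₀ ≤ κ) : Nonempty κ.ord.ToType := by
  rw [← Cardinal.mk_ne_zero_iff, Cardinal.mk_ord_toType]
  exact (aleph0_pos.trans_le hκ).ne'

/-- The dual form of Tukey reducibility of a regular cardinal. -/
theorem tukey_iff {κ : Cardinal.{u}} (hκ : κ.IsRegular) (P : Type u) [PartialOrder P] :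
    TukeyLE κ P ↔ ∃ g : κ.ord.ToType → P, ∀ X : Set κ.ord.ToType, IsCofinal X →
      ¬ ∃ q, ∀ x ∈ X, g x ≤ q := by
  have hne := nonemptyR hκ.aleph0_le
  have hmax := noMaxR hκ.aleph0_le
  constructor
  · rintro ⟨f, hf⟩
    have h1 : ∀ a : κ.ord.ToType, ∃ p : P, ∀ q, p ≤ q → a ≤ f q := by
      intro a
      by_contra hcon
      push Not at hcon
      have h2 : IsCofinal {q | f q < a} := fun p => by
        obtain ⟨q, hq, h⟩ := hcon p
        exact ⟨q, h, hq⟩
      obtain ⟨b, ⟨q, hq, rfl⟩, h⟩ := hf _ h2 a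
      exact absurd h (not_le.2 hq)
    choose p hp using h1
    refine ⟨p, fun X hX => ?_⟩
    rintro ⟨q, hq⟩
    obtain ⟨b, hb⟩ := exists_gt (f q)
    obtain ⟨x, hx, hbx⟩ := hX b
    exact absurd (hp x q (hq x hx)) (not_le.2 (hb.trans_le hbx))
  · rintro ⟨g, hg⟩
    have h1 : ∀ q : P, ∃ b, ∀ x, g x ≤ q → x < b := by
      intro q
      by_contra hcon
      push Not at hcon
      refine hg {x | g x ≤ q} (fun b => ?_) ⟨q, fun x hx => hx⟩
      obtain ⟨x, hx, hbx⟩ := hcon b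
      exact ⟨x, hx, hbx⟩
    choose f hf using h1
    refine ⟨f, fun B hB a => ?_⟩
    obtain ⟨q, hq, h⟩ := hB (g a)
    exact ⟨f q, ⟨q, hq, rfl⟩, (hf q a h).le⟩

/-! ### From the spectrum to products -/

section

variable {μ : Cardinal.{u}}

theorem cof_regular (hμ : ℵ₀ ≤ μ) : μ.ord.cof.IsRegular := by
  refine ⟨?_, ?_⟩
  · exact Ordinal.aleph0_le_cof_iff.2 (Ordinal.one_lt_cof_iff.2 (Cardinal.isSuccLimit_ord hμ))
  · rw [Ordinal.cof_ord_cof]

theorem S_to_C (hμ : ℵ₀ ≤ μ) (hsing : μ.ord.cof < μ)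
    (hpow : ∀ ν < μ, ∀ ρ < μ.ord.cof, ν ^ ρ ≤ μ) (hS : SuccInSpectrum μ) :
    ShortUnbounded μ := by
  classical
  intro κ hmono hreg hlt hcof
  by_contra hcon
  push Not at hcon
  have hcr := cof_regular hμ
  have hne : ∀ i, Nonempty (κ i).ord.ToType := fun i => nonemptyR (hreg i).aleph0_le
  let dflt : (i : μ.ord.cof.ord.ToType) → (κ i).ord.ToType := fun i => (hne i).some
  let P : Type u := (i : {i // μ.ord.cof < κ i}) → (κ i.1).ord.ToType
  have hdir : IsDirectedOrder P := inferInstance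
  -- the cofinality of `μ` is not in the spectrum
  have ha : μ.ord.cof ∉ Spectrum P := by
    rintro ⟨-, h⟩
    rw [tukey_iff hcr] at h
    obtain ⟨g, hg⟩ := h
    have h1 : ∀ i : {i // μ.ord.cof < κ i}, ∃ b : (κ i.1).ord.ToType, ∀ x, g x i < b := by
      intro i
      exact boundR (hreg i.1) (by rw [Cardinal.mk_ord_toType]; exact i.2) fun x => g x i
    choose b hb using h1
    exact hg univ IsCofinal.univ ⟨b, fun x _ i => (hb i x).le⟩
  -- the spectrum is unbounded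
  have hb : ∀ ν < μ, ∃ ρ ∈ Spectrum P, ν < ρ ∧ ρ < μ := by
    intro ν hν
    obtain ⟨i, hi⟩ := hcof (max ν μ.ord.cof) (max_lt hν hsing)
    have hi2 : μ.ord.cof < κ i := (le_max_right _ _).trans_lt hi
    refine ⟨κ i, ⟨hreg i, fun p => p ⟨i, hi2⟩, fun B hB a => ?_⟩, (le_max_left _ _).trans_lt hi,
      hlt i⟩
    obtain ⟨q, hq, hle⟩ := hB (Function.update (fun j => dflt j.1) ⟨i, hi2⟩ a)
    refine ⟨q ⟨i, hi2⟩, ⟨q, hq, rfl⟩, ?_⟩
    have := hle ⟨i, hi2⟩
    rwa [Function.update_self] at this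
  obtain ⟨hsr, hc⟩ := hS P ha hb
  rw [tukey_iff hsr] at hc
  obtain ⟨g, hg⟩ := hc
  let E : P → (i : μ.ord.cof.ord.ToType) → (κ i).ord.ToType := fun p i =>
    if h : μ.ord.cof < κ i then p ⟨i, h⟩ else dflt i
  obtain ⟨G, hG⟩ := hcon (range fun x => E (g x)) (Cardinal.mk_range_le.trans_eq
    (Cardinal.mk_ord_toType _))
  have hG1 : ∀ x, ∃ i, ∀ j ≥ i, E (g x) j ≤ G j := fun x => hG _ ⟨x, rfl⟩
  choose i hi using hG1
  obtain ⟨i0, hX1⟩ := pigeon (T := (succ μ).ord.ToType) (S := μ.ord.cof.ord.ToType) (by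
    rw [cofT hsr, Cardinal.mk_ord_toType]
    exact hsing.trans (lt_succ μ)) (X := univ) IsCofinal.univ i
  obtain ⟨c, hX2⟩ := pigeon (T := (succ μ).ord.ToType)
    (S := (j : Iio i0) → (κ j.1).ord.ToType) (by
      rw [cofT hsr, Cardinal.mk_pi]
      refine lt_succ_iff.2 ?_
      have h1 : Cardinal.prod (fun j : Iio i0 => #(κ j.1).ord.ToType) ≤
          Cardinal.prod (fun _ : Iio i0 => κ i0) := by
        refine Cardinal.prod_le_prod _ _ fun j => ?_
        rw [Cardinal.mk_ord_toType]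
        exact (hmono j.2).le
      refine h1.trans ?_
      rw [Cardinal.prod_const, Cardinal.lift_id, Cardinal.lift_id]
      refine hpow _ (hlt i0) _ ?_
      exact iio_lt i0) hX1 (fun x j => E (g x) j.1)
  refine hg _ hX2 ?_
  obtain ⟨x0, hx0, -⟩ := hX2 (Classical.choice (nonemptyR hsr.aleph0_le))
  refine ⟨fun j => if j.1 < i0 then E (g x0) j.1 else G j.1, fun x hx j => ?_⟩
  have hE : g x j = E (g x) j.1 := by
    simp only [E]
    rw [dif_pos j.2]
  rw [hE]
  obtain ⟨⟨-, hx1⟩, hx2⟩ := hx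
  obtain ⟨-, hx02⟩ := hx0
  show E (g x) j.1 ≤ if j.1 < i0 then E (g x0) j.1 else G j.1
  split_ifs with hj
  · have h1 : E (g x) j.1 = c ⟨j.1, hj⟩ := by
      rw [← hx2]
    have h2 : E (g x0) j.1 = c ⟨j.1, hj⟩ := by
      rw [← hx02]
    rw [h1, h2]
  · exact hi x j.1 (by rw [hx1]; exact not_lt.1 hj)

/-- the ordinal of an element of a cardinal -/
noncomputable def vo {κ : Cardinal.{u}} (x : κ.ord.ToType) : Ordinal.{u} :=
  ((Ordinal.ToType.mk.symm x : Iio κ.ord) : Ordinal.{u})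

theorem vo_lt {κ : Cardinal.{u}} (x : κ.ord.ToType) : vo x < κ.ord :=
  (Ordinal.ToType.mk.symm x : Iio κ.ord).2

theorem vo_lt_vo {κ : Cardinal.{u}} {x y : κ.ord.ToType} : vo x < vo y ↔ x < y := by
  show (Ordinal.ToType.mk.symm x : Iio κ.ord) < Ordinal.ToType.mk.symm y ↔ x < y
  exact OrderIso.lt_iff_lt _

theorem vo_le_vo {κ : Cardinal.{u}} {x y : κ.ord.ToType} : vo x ≤ vo y ↔ x ≤ y := by
  show (Ordinal.ToType.mk.symm x : Iio κ.ord) ≤ Ordinal.ToType.mk.symm y ↔ x ≤ y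
  exact OrderIso.le_iff_le _

theorem exists_vo {κ : Cardinal.{u}} {o : Ordinal.{u}} (h : o < κ.ord) :
    ∃ x : κ.ord.ToType, vo x = o :=
  ⟨Ordinal.ToType.mk ⟨o, h⟩, by simp [vo]⟩

/-- At most `μ` elements of the product are bounded modulo bounded sets. -/
theorem dir (hμ : ℵ₀ ≤ μ) {κ : μ.ord.cof.ord.ToType → Cardinal.{u}}
    (hreg : ∀ i, (κ i).IsRegular) (hmono : StrictMono κ) (hcof : ∀ ν < μ, ∃ i, ν < κ i)
    (hlarge : ∀ i, μ.ord.cof < κ i)
    {ι : Type u} (hι : #ι ≤ μ) (f : ι → (i : μ.ord.cof.ord.ToType) → (κ i).ord.ToType) :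
    ∃ g : (i : μ.ord.cof.ord.ToType) → (κ i).ord.ToType, ∀ a, ∃ i, ∀ j ≥ i, f a j ≤ g j := by
  classical
  have hcr := cof_regular hμ
  have hmax := noMaxR hcr.aleph0_le
  obtain ⟨e⟩ : Nonempty (ι ↪ μ.ord.ToType) := by
    rw [← Cardinal.le_def, Cardinal.mk_ord_toType]
    exact hι
  let A : μ.ord.cof.ord.ToType → Set ι := fun i => ⋃ j : Iio i, {a | vo (e a) < (κ j.1).ord}
  have hA : ∀ i, #(A i) < κ i := by
    intro i
    rw [Cardinal.card_iUnion_lt_iff_forall_of_isRegular (hreg i)]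
    · intro j
      refine lt_of_le_of_lt ?_ (hmono j.2)
      have h1 : #(κ j.1).ord.ToType = κ j.1 := Cardinal.mk_ord_toType _
      refine (Cardinal.mk_le_of_injective
        (f := fun a : {a | vo (e a) < (κ j.1).ord} =>
          (exists_vo (κ := κ j.1) (o := vo (e a.1)) a.2).choose) ?_).trans_eq h1
      intro a b hab
      have h2 := (exists_vo (κ := κ j.1) (o := vo (e a.1)) a.2).choose_spec
      have h3 := (exists_vo (κ := κ j.1) (o := vo (e b.1)) b.2).choose_spec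
      simp only at hab
      rw [hab] at h2
      have h4 : vo (e a.1) = vo (e b.1) := h2.symm.trans h3
      have h5 : e a.1 = e b.1 := by
        refine le_antisymm ?_ ?_
        · rw [← vo_le_vo, h4]
        · rw [← vo_le_vo, h4]
      exact Subtype.ext (e.injective h5)
    · exact (iio_lt i).trans (hlarge i)
  have hg : ∀ i, ∃ b : (κ i).ord.ToType, ∀ a : A i, f a i < b := fun i =>
    boundR (hreg i) (hA i) fun a : A i => f a i
  choose g hg using hg
  refine ⟨g, fun a => ?_⟩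
  obtain ⟨j, hj⟩ := hcof (vo (e a)).card (Cardinal.lt_ord.1 (vo_lt (e a)))
  obtain ⟨i, hi⟩ := exists_gt j
  refine ⟨i, fun k hk => (hg k ⟨a, ?_⟩).le⟩
  exact mem_iUnion.2 ⟨⟨j, hi.trans_le hk⟩, Cardinal.lt_ord.2 hj⟩

/-- Transfinite dependent choice along a well-order. -/
theorem exists_seq {J : Type u} {X : Type*} [LinearOrder J] [WellFoundedLT J] [Nonempty X]
    (R : J → X → Prop) (S : X → X → Prop)
    (h : ∀ (j : J) (g : J → X), (∀ i < j, R i (g i)) → ∃ x, R j x ∧ ∀ i < j, S (g i) x) :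
    ∃ s : J → X, (∀ j, R j (s j)) ∧ ∀ i j, i < j → S (s i) (s j) := by
  classical
  let F : (j : J) → ((i : J) → i < j → X) → X := fun j prev =>
    if hx : ∃ x, R j x ∧ ∀ (i : J) (hi : i < j), S (prev i hi) x then hx.choose
    else Classical.arbitrary X
  let s : J → X := (wellFounded_lt (α := J)).fix F
  have hs : ∀ j, s j = F j (fun i _ => s i) := fun j => (wellFounded_lt (α := J)).fix_eq F j
  have key : ∀ j, R j (s j) ∧ ∀ i < j, S (s i) (s j) := by
    intro j
    induction j using WellFoundedLT.induction with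
    | ind j ih =>
      have hx : ∃ x, R j x ∧ ∀ (i : J) (_ : i < j), S (s i) x := h j s (fun i hi => (ih i hi).1)
      have hsj : s j = hx.choose := by
        rw [hs]
        simp only [F]
        rw [dif_pos hx]
      rw [hsj]
      exact hx.choose_spec
  exact ⟨s, fun j => (key j).1, fun i j hij => (key j).2 i hij⟩

/-- An increasing sequence of members of an unbounded set of cardinals below `μ`. -/
theorem exists_kappa (Q : Set Cardinal.{u}) (hQ : ∀ ν < μ, ∃ κ ∈ Q, ν < κ ∧ κ < μ)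
    {ρ : Cardinal.{u}} (hρ : ρ < μ) :
    ∃ κ : μ.ord.cof.ord.ToType → Cardinal.{u}, StrictMono κ ∧ (∀ i, κ i ∈ Q) ∧
      (∀ i, κ i < μ) ∧ (∀ i, ρ < κ i) ∧ ∀ ν < μ, ∃ i, ν < κ i := by
  classical
  obtain ⟨s, hs, hs2⟩ := Order.exists_cof_eq μ.ord.ToType
  rw [Ordinal.cof_toType] at hs2
  obtain ⟨e⟩ : Nonempty (μ.ord.cof.ord.ToType ≃ s) := by
    rw [← Cardinal.eq, hs2, Cardinal.mk_ord_toType]
  let ν : μ.ord.cof.ord.ToType → Cardinal.{u} := fun j => (vo (e j).1).card
  have hν : ∀ j, ν j < μ := fun j => Cardinal.lt_ord.1 (vo_lt _)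
  obtain ⟨κ, h1, h2⟩ := exists_seq (J := μ.ord.cof.ord.ToType) (X := Cardinal.{u})
    (fun j x => x ∈ Q ∧ x < μ ∧ ρ < x ∧ ν j < x) (fun x y => x < y) (by
      intro j g hg
      have h3 : (⨆ i : Iio j, g i.1) < μ := by
        refine Cardinal.iSup_lt_of_lt_cof_ord ?_ fun i => (hg i.1 i.2).2.1
        exact iio_lt j
      obtain ⟨x, hx, hx1, hx2⟩ := hQ (max (max ρ (ν j)) (⨆ i : Iio j, g i.1))
        (max_lt (max_lt hρ (hν j)) h3)
      obtain ⟨h4, h5⟩ := max_lt_iff.1 hx1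
      obtain ⟨h6, h7⟩ := max_lt_iff.1 h4
      refine ⟨x, ⟨hx, hx2, h6, h7⟩, fun i hi => lt_of_le_of_lt ?_ h5⟩
      exact le_ciSup (f := fun i : Iio j => g i.1) Cardinal.bddAbove_of_small ⟨i, hi⟩)
  refine ⟨κ, fun i j hij => h2 i j hij, fun i => (h1 i).1, fun i => (h1 i).2.1,
    fun i => (h1 i).2.2.1, fun c hc => ?_⟩
  obtain ⟨x, hx⟩ := exists_vo (κ := μ) (o := c.ord) (Cardinal.ord_lt_ord.2 hc)
  obtain ⟨y, hy, hxy⟩ := hs x
  refine ⟨e.symm ⟨y, hy⟩, lt_of_le_of_lt ?_ (h1 _).2.2.2⟩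
  simp only [ν, Equiv.apply_symm_apply]
  have h3 : c.ord ≤ vo y := hx ▸ vo_le_vo.2 hxy
  rw [← Cardinal.card_ord c]
  exact Ordinal.card_le_card h3

theorem C_to_S (hμ : ℵ₀ ≤ μ) (hpow : 2 ^ μ.ord.cof < μ) (hC : ShortUnbounded μ) :
    SuccInSpectrum μ := by
  classical
  intro P _ _ hcofP hunb
  have hcr := cof_regular hμ
  have hsr : (succ μ).IsRegular := Cardinal.isRegular_succ hμ
  have hmaxc := noMaxR hcr.aleph0_le
  have hmaxs := noMaxR hsr.aleph0_le
  have hcofs : Order.cof (succ μ).ord.ToType = succ μ := cofT hsr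
  obtain ⟨κ, hmono, hQ, hlt, hlarge, hcof⟩ := exists_kappa (Spectrum P) hunb hpow
  have hreg : ∀ i, (κ i).IsRegular := fun i => (hQ i).1
  have hlarge' : ∀ i, μ.ord.cof < κ i := fun i => (Cardinal.cantor _).trans (hlarge i)
  have hp : ∀ i, ∃ g : (κ i).ord.ToType → P, ∀ X : Set (κ i).ord.ToType, IsCofinal X →
      ¬ ∃ q, ∀ x ∈ X, g x ≤ q := fun i => (tukey_iff (hreg i) P).1 (hQ i).2
  choose p hp using hp
  have inst : IsRegularCardinalOrder μ.ord.cof.ord.ToType := ⟨by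
    rw [Ordinal.type_toType, cofT hcr]⟩
  -- the unbounded families on all cofinal subsets
  have hF : ∀ I : {I : Set μ.ord.cof.ord.ToType // IsCofinal I},
      ∃ φ : (succ μ).ord.ToType → (k : μ.ord.cof.ord.ToType) →
        (κ (Order.enum I.1 I.2 k)).ord.ToType,
        ∀ g : (k : μ.ord.cof.ord.ToType) → (κ (Order.enum I.1 I.2 k)).ord.ToType,
          ∃ η, ∀ i, ∃ j ≥ i, g j < φ η j := by
    rintro ⟨I, hI⟩
    obtain ⟨F, hF1, hF2⟩ := hC (fun k => κ (Order.enum I hI k))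
      (fun a b hab => hmono (by simpa using hab)) (fun k => hreg _) (fun k => hlt _) (by
        intro ν hν
        obtain ⟨i, hi⟩ := hcof ν hν
        refine ⟨i, hi.trans_le (hmono.monotone ?_)⟩
        have h1 : StrictMono fun k => ((Order.enum I hI k : I) : μ.ord.cof.ord.ToType) :=
          fun a b hab => by simpa using hab
        exact h1.le_apply)
    have hFne : Nonempty F := by
      obtain ⟨f, hf, -⟩ := hF2 (fun k => Classical.choice (nonemptyR (hreg _).aleph0_le))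
      exact ⟨⟨f, hf⟩⟩
    obtain ⟨e⟩ : Nonempty (F ↪ (succ μ).ord.ToType) := by
      rw [← Cardinal.le_def, Cardinal.mk_ord_toType]
      exact hF1
    refine ⟨fun η => (Function.invFun e η).1, fun g => ?_⟩
    obtain ⟨f, hf, h⟩ := hF2 g
    refine ⟨e ⟨f, hf⟩, fun i => ?_⟩
    obtain ⟨j, hj, hlt⟩ := h i
    refine ⟨j, hj, ?_⟩
    show g j < (Function.invFun e (e ⟨f, hf⟩)).1 j
    rwa [Function.leftInverse_invFun e.injective]
  choose φ hφ using hF
  -- the values as ordinals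
  let ψ : {I : Set μ.ord.cof.ord.ToType // IsCofinal I} → (succ μ).ord.ToType →
      μ.ord.cof.ord.ToType → Ordinal.{u} := fun I η i =>
    if h : i ∈ I.1 then vo (φ I η ((Order.enum I.1 I.2).symm ⟨i, h⟩)) else 0
  have hψ : ∀ I η i, ψ I η i < (κ i).ord := by
    intro I η i
    simp only [ψ]
    split_ifs with h
    · have h1 := vo_lt (φ I η ((Order.enum I.1 I.2).symm ⟨i, h⟩))
      refine h1.trans_eq (congrArg Cardinal.ord ?_)
      rw [OrderIso.apply_symm_apply]
    · exact lt_of_le_of_lt (zero_le) (vo_lt (Classical.choice (nonemptyR (hreg i).aleph0_le)))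
  have hψ2 : ∀ I η k, ψ I η (Order.enum I.1 I.2 k) = vo (φ I η k) := by
    intro I η k
    simp only [ψ]
    rw [dif_pos (Order.enum I.1 I.2 k).2]
    have h1 : ∀ a b, a = b → vo (φ I η a) = vo (φ I η b) := by
      rintro a b rfl
      rfl
    apply h1
    simp
  have hβ : ∀ (η : (succ μ).ord.ToType) (i : μ.ord.cof.ord.ToType), ∃ b : (κ i).ord.ToType,
      ∀ I, ψ I η i ≤ vo b := by
    intro η i
    have h1 : (⨆ I, ψ I η i) < (κ i).ord := by
      refine Ordinal.iSup_lt_of_lt_cof ?_ fun I => hψ I η i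
      rw [(hreg i).cof_ord]
      refine lt_of_le_of_lt ?_ (hlarge i)
      refine (Cardinal.mk_subtype_le _).trans ?_
      rw [Cardinal.mk_set, Cardinal.mk_ord_toType]
    obtain ⟨b, hb⟩ := exists_vo h1
    refine ⟨b, fun I => ?_⟩
    rw [hb]
    exact Ordinal.le_iSup (fun I => ψ I η i) I
  choose B hB using hβ
  -- bounds of the initial segments
  have hh : ∀ ξ : (succ μ).ord.ToType, ∃ g : (i : μ.ord.cof.ord.ToType) → (κ i).ord.ToType,
      ∀ a : Iio ξ, ∃ i, ∀ j ≥ i, B a j ≤ g j := fun ξ =>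
    dir hμ hreg hmono hcof hlarge' (lt_succ_iff.1 (iio_lt ξ))
      fun a : Iio ξ => B a.1
  choose h hh using hh
  -- the elements of `P`
  have hr : ∀ ξ : (succ μ).ord.ToType, ∃ I : {I : Set μ.ord.cof.ord.ToType // IsCofinal I},
      ∃ r : P, ∀ i ∈ I.1, p i (h ξ i) ≤ r := by
    intro ξ
    have h1 : ¬ TukeyLE μ.ord.cof P := fun h2 => hcofP ⟨hcr, h2⟩
    rw [tukey_iff hcr] at h1
    push Not at h1
    obtain ⟨X, hX, q, hq⟩ := h1 fun i => p i (h ξ i)
    exact ⟨⟨X, hX⟩, q, hq⟩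
  choose I r hr using hr
  refine ⟨hsr, (tukey_iff hsr P).2 ⟨r, fun X hX => ?_⟩⟩
  rintro ⟨q, hq⟩
  obtain ⟨I0, hX'⟩ := pigeon (T := (succ μ).ord.ToType)
    (S := {I : Set μ.ord.cof.ord.ToType // IsCofinal I}) (by
      rw [hcofs]
      refine lt_of_le_of_lt ?_ (hpow.trans (lt_succ μ))
      refine (Cardinal.mk_subtype_le _).trans ?_
      rw [Cardinal.mk_set, Cardinal.mk_ord_toType]) hX I
  have hγ : ∀ k : μ.ord.cof.ord.ToType, ∃ γ : (κ (Order.enum I0.1 I0.2 k)).ord.ToType,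
      ∀ ξ ∈ {x ∈ X | I x = I0}, h ξ (Order.enum I0.1 I0.2 k) < γ := by
    intro k
    by_contra hcon
    push Not at hcon
    refine hp (Order.enum I0.1 I0.2 k)
      ((fun ξ => h ξ (Order.enum I0.1 I0.2 k)) '' {x ∈ X | I x = I0}) (fun b => ?_) ⟨q, ?_⟩
    · obtain ⟨ξ, hξ, hle⟩ := hcon b
      exact ⟨_, ⟨ξ, hξ, rfl⟩, hle⟩
    · rintro _ ⟨ξ, ⟨hξ1, hξ2⟩, rfl⟩
      refine le_trans ?_ (hq ξ hξ1)
      refine hr ξ _ ?_
      rw [hξ2]
      exact (Order.enum I0.1 I0.2 k).2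
  choose γ hγ using hγ
  obtain ⟨η, hη⟩ := hφ I0 γ
  obtain ⟨η', hη'⟩ := exists_gt η
  obtain ⟨ξ, hξ, hle⟩ := hX' η'
  obtain ⟨i1, hi1⟩ := hh ξ ⟨η, hη'.trans_le hle⟩
  obtain ⟨j, hj, hlt'⟩ := hη i1
  have h1 : StrictMono fun k => ((Order.enum I0.1 I0.2 k : I0.1) : μ.ord.cof.ord.ToType) :=
    fun a b hab => by simpa using hab
  have h2 : i1 ≤ (Order.enum I0.1 I0.2 j : μ.ord.cof.ord.ToType) := le_trans hj h1.le_apply
  have h3 := hi1 _ h2
  have h4 := hB η (Order.enum I0.1 I0.2 j) I0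
  rw [hψ2] at h4
  have h5 := vo_le_vo.2 h3
  have h6 := vo_lt_vo.2 (hγ j ξ hξ)
  have h7 := vo_lt_vo.2 hlt'
  exact absurd (h7.trans_le (h4.trans (h5.trans h6.le))) (lt_irrefl _)

/-- If `2 ^ μ = μ⁺` then the whole product is a family as in `ShortUnbounded`. -/
theorem C_of_pow (hμ : ℵ₀ ≤ μ) (h2 : 2 ^ μ = succ μ) : ShortUnbounded μ := by
  intro κ hmono hreg hlt hcof
  have hcr := cof_regular hμ
  refine ⟨Set.univ, ?_, fun g => ?_⟩
  · rw [Cardinal.mk_univ, Cardinal.mk_pi]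
    have h1 : Cardinal.prod (fun j => #(κ j).ord.ToType) ≤
        Cardinal.prod (fun _ : μ.ord.cof.ord.ToType => μ) := by
      refine Cardinal.prod_le_prod _ _ fun j => ?_
      rw [Cardinal.mk_ord_toType]
      exact (hlt j).le
    refine h1.trans ?_
    rw [Cardinal.prod_const, Cardinal.lift_id, Cardinal.lift_id, Cardinal.mk_ord_toType, ← h2]
    calc μ ^ μ.ord.cof ≤ μ ^ μ :=
          Cardinal.power_le_power_left (aleph0_pos.trans_le hμ).ne' (Ordinal.cof_ord_le μ)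
      _ = 2 ^ μ := Cardinal.power_self_eq hμ
  · have h3 : ∀ i, ∃ b : (κ i).ord.ToType, g i < b := fun i => by
      have := noMaxR (hreg i).aleph0_le
      exact exists_gt (g i)
    choose f hf using h3
    exact ⟨f, mem_univ f, fun i => ⟨i, le_rfl, hf i⟩⟩

end

/-- **Theorem.** Let `μ` be a singular cardinal.

1. If `μ` has countable cofinality, or if `ν ^ cf μ < μ` for all `ν < μ`, then the statement of the
   question for `μ` implies that for every increasing sequence of regular cardinals of length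
   `cf μ` with limit `μ` some family of at most `μ⁺` elements of the product is unbounded modulo
   bounded sets.
2. The converse holds if `2 ^ cf μ < μ`.
3. So the two statements are equivalent if `μ` is a strong limit.
4. Both are true if `μ` is a strong limit and `2 ^ μ = μ⁺`. -/
theorem result (μ : Cardinal.{u}) (hμ : μ.IsSingular) :
    ((μ.ord.cof = ℵ₀ ∨ ∀ ν < μ, ν ^ μ.ord.cof < μ) → SuccInSpectrum μ → ShortUnbounded μ) ∧
    (2 ^ μ.ord.cof < μ → ShortUnbounded μ → SuccInSpectrum μ) ∧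
    (μ.IsStrongLimit → (SuccInSpectrum μ ↔ ShortUnbounded μ)) ∧
    (μ.IsStrongLimit → 2 ^ μ = succ μ → SuccInSpectrum μ) := by
  have hinf : ℵ₀ ≤ μ := hμ.aleph0_le
  have hsing : μ.ord.cof < μ := hμ.cof_ord_lt
  have h1 : (μ.ord.cof = ℵ₀ ∨ ∀ ν < μ, ν ^ μ.ord.cof < μ) → SuccInSpectrum μ →
      ShortUnbounded μ := by
    rintro (h | h) hS
    · refine S_to_C hinf hsing (fun ν hν ρ hρ => ?_) hS
      rw [h] at hρ
      obtain ⟨n, rfl⟩ := Cardinal.lt_aleph0.1 hρ
      calc ν ^ (n : Cardinal.{u}) ≤ (max ν ℵ₀) ^ (n : Cardinal.{u}) :=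
            Cardinal.power_le_power_right (le_max_left _ _)
        _ ≤ max ν ℵ₀ := Cardinal.power_nat_le (le_max_right _ _)
        _ ≤ μ := max_le hν.le hinf
    · refine S_to_C hinf hsing (fun ν hν ρ hρ => ?_) hS
      rcases eq_or_ne ν 0 with rfl | h0
      · exact (Cardinal.zero_power_le ρ).trans (Cardinal.one_le_aleph0.trans hinf)
      · exact (Cardinal.power_le_power_left h0 hρ.le).trans (h ν hν).le
  have h2 : 2 ^ μ.ord.cof < μ → ShortUnbounded μ → SuccInSpectrum μ := C_to_S hinf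
  have h3 : μ.IsStrongLimit → ∀ ν < μ, ν ^ μ.ord.cof < μ := by
    intro hsl ν hν
    have h4 : max (max ν μ.ord.cof) ℵ₀ < μ :=
      max_lt (max_lt hν hsing) (hμ.aleph0_le.lt_of_ne fun h => not_isSingular_aleph0 (h ▸ hμ))
    calc ν ^ μ.ord.cof ≤ (max (max ν μ.ord.cof) ℵ₀) ^ μ.ord.cof :=
          Cardinal.power_le_power_right ((le_max_left _ _).trans (le_max_left _ _))
      _ ≤ (max (max ν μ.ord.cof) ℵ₀) ^ (max (max ν μ.ord.cof) ℵ₀) :=
          Cardinal.power_le_power_left (aleph0_pos.trans_le (le_max_right _ _)).ne'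
            ((le_max_right _ _).trans (le_max_left _ _))
      _ = 2 ^ (max (max ν μ.ord.cof) ℵ₀) := Cardinal.power_self_eq (le_max_right _ _)
      _ < μ := hsl.isStrongPrelimit h4
  exact ⟨h1, h2, fun hsl => ⟨h1 (Or.inr (h3 hsl)), h2 (hsl.isStrongPrelimit hsing)⟩,
    fun hsl hpow => h2 (hsl.isStrongPrelimit hsing) (C_of_pow hinf hpow)⟩

end Pool.Agent.Results.MP_c014b8_lc.ScaleLength
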